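import Mathlib
import Pool.Agent.Q286.BD.Spec

set_option autoImplicit false

/-! Job P7a of project BD: a compactly supported probability measure with almost exponentially
decaying transform. -/

namespace Q238.BD

open Set Filter Topology MeasureTheory ProbabilityTheory

/-- clamping to `[0,1]` -/
noncomputable def clamp (x : ℝ) : ℝ := max 0 (min x 1)

lemma clamp_nonneg (x : ℝ) : 0 ≤ clamp x := le_max_left _ _

lemma clamp_le_one (x : ℝ) : clamp x ≤ 1 := max_le zero_le_one (min_le_right _ _)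

lemma clamp_cont : Continuous clamp := continuous_const.max (continuous_id.min continuous_const)

lemma clamp_eq {x : ℝ} (h0 : 0 ≤ x) (h1 : x ≤ 1) : clamp x = x := by
  unfold clamp; rw [min_eq_left h1, max_eq_right h0]

/-- the uniform distribution -/
noncomputable def mu0 : Measure ℝ := volume.restrict (Icc 0 1)

instance : IsProbabilityMeasure mu0 := ⟨by simp [mu0]⟩

/-- the product measure -/
noncomputable def PP : Measure (ℕ → ℝ) := Measure.infinitePi (fun _ : ℕ => mu0)

instance : IsProbabilityMeasure PP := by unfold PP; infer_instance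

/-- transform of the uniform distribution -/
noncomputable def psi (w : ℂ) : ℂ := ∫ x, Complex.exp (w * ((clamp x : ℝ) : ℂ)) ∂mu0

lemma psi_eq (w : ℂ) : psi w = ∫ x in (0 : ℝ)..1, Complex.exp (w * x) := by
  unfold psi mu0
  rw [intervalIntegral.integral_of_le zero_le_one, ← integral_Icc_eq_integral_Ioc]
  refine setIntegral_congr_fun measurableSet_Icc fun x hx => ?_
  simp only [clamp_eq hx.1 hx.2]

lemma norm_psi_le (w : ℂ) : ‖psi w‖ ≤ Real.exp (max w.re 0) := by
  unfold psi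
  have : ‖∫ x, Complex.exp (w * ((clamp x : ℝ) : ℂ)) ∂mu0‖ ≤ Real.exp (max w.re 0) * mu0.real univ := by
    refine norm_integral_le_of_norm_le_const (Eventually.of_forall fun x => ?_)
    rw [Complex.norm_exp]
    apply Real.exp_le_exp.2
    have : (w * ((clamp x : ℝ) : ℂ)).re = w.re * clamp x := by simp
    rw [this]
    rcases le_total w.re 0 with h | h
    · rw [max_eq_right h]; exact mul_nonpos_of_nonpos_of_nonneg h (clamp_nonneg x)
    · rw [max_eq_left h]; exact mul_le_of_le_one_right h (clamp_le_one x)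
  simpa using this

lemma norm_psi_le' (w : ℂ) (hw : 4 ≤ |w.im|) : ‖psi w‖ ≤ Real.exp (max w.re 0) * (1 / 2) := by
  have hw0 : w ≠ 0 := by
    rintro rfl; simp at hw; linarith
  rw [psi_eq, integral_exp_mul_complex hw0]
  have h1 : ‖w‖ ≥ 4 := hw.trans (Complex.abs_im_le_norm w)
  rw [norm_div, div_le_iff₀ (by linarith)]
  have h2 : ‖Complex.exp (w * (1 : ℝ)) - Complex.exp (w * (0 : ℝ))‖ ≤ 2 * Real.exp (max w.re 0) := by
    refine (norm_sub_le _ _).trans ?_
    have e1 : ‖Complex.exp (w * (1 : ℝ))‖ ≤ Real.exp (max w.re 0) := by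
      rw [Complex.norm_exp]; apply Real.exp_le_exp.2; simp
    have e2 : ‖Complex.exp (w * (0 : ℝ))‖ ≤ Real.exp (max w.re 0) := by
      simp
    linarith
  refine h2.trans ?_
  have := Real.exp_pos (max w.re 0)
  nlinarith

section
variable (a : ℕ → ℝ)

/-- partial sums -/
noncomputable def XN (N : ℕ) (ω : ℕ → ℝ) : ℝ := 1 + ∑ j ∈ Finset.range N, a j * clamp (ω j)

/-- the random variable -/
noncomputable def XX (ω : ℕ → ℝ) : ℝ := 1 + ∑' j, a j * clamp (ω j)

variable {a}

lemma summ (ha : ∀ j, 0 ≤ a j) (hs : HasSum a 1) (ω : ℕ → ℝ) : Summable (fun j => a j * clamp (ω j)) := by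
  refine Summable.of_nonneg_of_le (fun j => mul_nonneg (ha j) (clamp_nonneg _)) (fun j => ?_) hs.summable
  exact mul_le_of_le_one_right (ha j) (clamp_le_one _)

lemma XN_tendsto (ha : ∀ j, 0 ≤ a j) (hs : HasSum a 1) (ω : ℕ → ℝ) :
    Tendsto (fun N => XN a N ω) atTop (𝓝 (XX a ω)) :=
  ((summ ha hs ω).hasSum.tendsto_sum_nat).const_add 1

lemma XN_meas (N : ℕ) : Measurable (XN a N) := by
  unfold XN
  refine measurable_const.add (Finset.measurable_fun_sum _ fun j _ => ?_)
  exact (clamp_cont.measurable.comp (measurable_pi_apply j)).const_mul _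

lemma XX_meas (ha : ∀ j, 0 ≤ a j) (hs : HasSum a 1) : Measurable (XX a) :=
  measurable_of_tendsto_metrizable (XN_meas (a := a)) (tendsto_pi_nhds.2 fun ω => XN_tendsto ha hs ω)

lemma XX_mem (ha : ∀ j, 0 ≤ a j) (hs : HasSum a 1) (ω : ℕ → ℝ) : XX a ω ∈ Icc (1 : ℝ) 2 := by
  have h1 : 0 ≤ ∑' j, a j * clamp (ω j) := tsum_nonneg fun j => mul_nonneg (ha j) (clamp_nonneg _)
  have h2 : ∑' j, a j * clamp (ω j) ≤ ∑' j, a j :=
    (summ ha hs ω).tsum_le_tsum (fun j => mul_le_of_le_one_right (ha j) (clamp_le_one _)) hs.summable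
  rw [hs.tsum_eq] at h2
  unfold XX
  constructor <;> linarith

lemma XN_mem (ha : ∀ j, 0 ≤ a j) (hs : HasSum a 1) (N : ℕ) (ω : ℕ → ℝ) : XN a N ω ∈ Icc (1 : ℝ) 2 := by
  have h1 : 0 ≤ ∑ j ∈ Finset.range N, a j * clamp (ω j) :=
    Finset.sum_nonneg fun j _ => mul_nonneg (ha j) (clamp_nonneg _)
  have h2 : ∑ j ∈ Finset.range N, a j * clamp (ω j) ≤ ∑ j ∈ Finset.range N, a j :=
    Finset.sum_le_sum fun j _ => mul_le_of_le_one_right (ha j) (clamp_le_one _)
  have h3 : ∑ j ∈ Finset.range N, a j ≤ 1 := sum_le_hasSum _ (fun j _ => ha j) hs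
  unfold XN
  constructor <;> linarith

lemma coord (f : ℝ → ℂ) (hf : Measurable f) (j : ℕ) : ∫ ω, f (ω j) ∂PP = ∫ x, f x ∂mu0 := by
  have h := measurePreserving_eval_infinitePi (fun _ : ℕ => mu0) j
  have h2 : ∫ x, f x ∂mu0 = ∫ x, f x ∂(Measure.map (Function.eval j) PP) := by
    unfold PP; rw [h.map_eq]
  rw [h2, integral_map (measurable_pi_apply j).aemeasurable hf.aestronglyMeasurable]

lemma integral_XN (z : ℂ) (N : ℕ) : ∫ ω, Complex.exp (z * ((XN a N ω : ℝ) : ℂ)) ∂PP =
    Complex.exp z * ∏ j ∈ Finset.range N, psi (z * a j) := by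
  have e1 : ∀ ω : ℕ → ℝ, Complex.exp (z * ((XN a N ω : ℝ) : ℂ)) =
      Complex.exp z * ∏ j : Fin N, Complex.exp (z * a j * ((clamp (ω j) : ℝ) : ℂ)) := by
    intro ω
    rw [← Complex.exp_sum, ← Complex.exp_add]
    congr 1
    rw [Fin.sum_univ_eq_sum_range (fun j => z * (a j : ℂ) * ((clamp (ω j) : ℝ) : ℂ)) N]
    unfold XN
    push_cast
    rw [mul_add, mul_one, Finset.mul_sum]
    congr 1
    refine Finset.sum_congr rfl fun j _ => ?_
    ring
  simp_rw [e1]
  rw [integral_const_mul]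
  congr 1
  have hind : iIndepFun (fun (i : ℕ) (ω : ℕ → ℝ) => ω i) PP := by
    have := iIndepFun_infinitePi (P := fun _ : ℕ => mu0) (X := fun (i : ℕ) (x : ℝ) => x) (fun i => measurable_id)
    exact this
  have hind2 : iIndepFun (fun (i : Fin N) (ω : ℕ → ℝ) => ω (i : ℕ)) PP :=
    hind.precomp Fin.val_injective
  have h := hind2.integral_fun_prod_comp (𝕜 := ℂ)
    (f := fun (i : Fin N) (x : ℝ) => Complex.exp (z * a i * ((clamp x : ℝ) : ℂ)))
    (fun i => (measurable_pi_apply _).aemeasurable)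
    (fun i => by
      apply Measurable.aestronglyMeasurable
      exact Complex.measurable_exp.comp ((Complex.measurable_ofReal.comp clamp_cont.measurable).const_mul _))
  rw [h]
  rw [← Fin.prod_univ_eq_prod_range (fun j => psi (z * a j)) N]
  refine Finset.prod_congr rfl fun i _ => ?_
  exact coord (fun x => Complex.exp (z * a i * ((clamp x : ℝ) : ℂ)))
    (Complex.measurable_exp.comp ((Complex.measurable_ofReal.comp clamp_cont.measurable).const_mul _)) i

lemma norm_integral_XN (ha : ∀ j, 0 ≤ a j) (hs : HasSum a 1) (z : ℂ) (J : ℕ)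
    (hJ : ∀ j < J, 4 ≤ a j * |z.im|) (N : ℕ) (hN : J ≤ N) :
    ‖∫ ω, Complex.exp (z * ((XN a N ω : ℝ) : ℂ)) ∂PP‖ ≤ Real.exp (z.re + max z.re 0) * (1 / 2) ^ J := by
  rw [integral_XN, norm_mul, norm_prod, Complex.norm_exp, Real.exp_add, mul_assoc]
  refine mul_le_mul_of_nonneg_left ?_ (Real.exp_pos _).le
  have h1 : ∀ j, (z * (a j : ℂ)).re = z.re * a j := by intro j; simp
  have h1' : ∀ j, (z * (a j : ℂ)).im = z.im * a j := by intro j; simp
  have h2 : ∀ j, max (z.re * a j) 0 = a j * max z.re 0 := by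
    intro j
    rw [mul_comm (z.re) (a j), mul_max_of_nonneg _ _ (ha j), mul_zero]
  have h3 : ∏ j ∈ Finset.range N, ‖psi (z * a j)‖ ≤
      ∏ j ∈ Finset.range N, (Real.exp (a j * max z.re 0) * (if j < J then 1 / 2 else 1)) := by
    refine Finset.prod_le_prod (fun j _ => norm_nonneg _) fun j _ => ?_
    split_ifs with hj
    · have := norm_psi_le' (z * a j) (by
        rw [h1', abs_mul, abs_of_nonneg (ha j), mul_comm]; exact hJ j hj)
      rwa [h1, h2] at this
    · have := norm_psi_le (z * a j)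
      rwa [h1, h2, ← mul_one (Real.exp (a j * max z.re 0))] at this
  refine h3.trans ?_
  rw [Finset.prod_mul_distrib, ← Real.exp_sum, ← Finset.sum_mul]
  have h4 : ∏ j ∈ Finset.range N, (if j < J then (1 / 2 : ℝ) else 1) = (1 / 2) ^ J := by
    rw [Finset.prod_ite, Finset.prod_const, Finset.prod_const_one, mul_one]
    congr 1
    have : Finset.filter (fun j => j < J) (Finset.range N) = Finset.range J := by
      ext j; simp only [Finset.mem_filter, Finset.mem_range]; omega
    rw [this, Finset.card_range]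
  rw [h4]
  refine mul_le_mul_of_nonneg_right ?_ (by positivity)
  apply Real.exp_le_exp.2
  have h5 : ∑ j ∈ Finset.range N, a j ≤ 1 := sum_le_hasSum _ (fun j _ => ha j) hs
  exact mul_le_of_le_one_left (le_max_right _ _) h5

lemma norm_integral_XX (ha : ∀ j, 0 ≤ a j) (hs : HasSum a 1) (z : ℂ) (J : ℕ)
    (hJ : ∀ j < J, 4 ≤ a j * |z.im|) :
    ‖∫ ω, Complex.exp (z * ((XX a ω : ℝ) : ℂ)) ∂PP‖ ≤ Real.exp (z.re + max z.re 0) * (1 / 2) ^ J := by
  have ht : Tendsto (fun N => ∫ ω, Complex.exp (z * ((XN a N ω : ℝ) : ℂ)) ∂PP) atTop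
      (𝓝 (∫ ω, Complex.exp (z * ((XX a ω : ℝ) : ℂ)) ∂PP)) := by
    refine tendsto_integral_of_dominated_convergence (fun _ => Real.exp (2 * |z.re|)) ?_ ?_ ?_ ?_
    · intro N
      exact (Complex.measurable_exp.comp ((Complex.measurable_ofReal.comp (XN_meas N)).const_mul z)).aestronglyMeasurable
    · exact integrable_const _
    · intro N
      refine Eventually.of_forall fun ω => ?_
      rw [Complex.norm_exp]
      apply Real.exp_le_exp.2
      have e : (z * ((XN a N ω : ℝ) : ℂ)).re = z.re * XN a N ω := by simp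
      rw [e]
      have hm := XN_mem ha hs N ω
      calc z.re * XN a N ω ≤ |z.re * XN a N ω| := le_abs_self _
        _ = |z.re| * XN a N ω := by rw [abs_mul, abs_of_nonneg (by linarith [hm.1] : 0 ≤ XN a N ω)]
        _ ≤ |z.re| * 2 := mul_le_mul_of_nonneg_left hm.2 (abs_nonneg _)
        _ = 2 * |z.re| := by ring
    · refine Eventually.of_forall fun ω => ?_
      have := XN_tendsto ha hs ω
      exact ((Complex.continuous_exp.comp (continuous_const.mul Complex.continuous_ofReal)).tendsto _).comp this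
  refine le_of_tendsto ht.norm ?_
  filter_upwards [eventually_ge_atTop J] with N hN
  exact norm_integral_XN ha hs z J hJ N hN

lemma exists_measure (ha : ∀ j, 0 ≤ a j) (hs : HasSum a 1) : ∃ ν : Measure ℝ, IsProbabilityMeasure ν ∧
    ν (Icc 1 2)ᶜ = 0 ∧ ∀ (z : ℂ) (J : ℕ), (∀ j < J, 4 ≤ a j * |z.im|) →
      ‖∫ w : ℝ, Complex.exp (z * w) ∂ν‖ ≤ Real.exp (z.re + max z.re 0) * (1 / 2) ^ J := by
  have hm := XX_meas ha hs
  refine ⟨PP.map (XX a), Measure.isProbabilityMeasure_map hm.aemeasurable, ?_, ?_⟩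
  · rw [Measure.map_apply hm measurableSet_Icc.compl]
    have : XX a ⁻¹' (Icc 1 2)ᶜ = ∅ := by
      ext ω
      simp only [mem_preimage, mem_compl_iff, mem_empty_iff_false, iff_false, not_not]
      exact XX_mem ha hs ω
    rw [this, measure_empty]
  · intro z J hJ
    rw [integral_map hm.aemeasurable (by
      apply Measurable.aestronglyMeasurable
      exact Complex.measurable_exp.comp (Complex.measurable_ofReal.const_mul z))]
    exact norm_integral_XX ha hs z J hJ

end

open Pool.Agent.Q286.BD in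
/-- Job P7a. -/
theorem gev : S_gev := by
  intro β hβ0 hβ1
  have hγ : 1 < 1 / β := by rw [lt_div_iff₀ hβ0]; linarith
  set b : ℕ → ℝ := fun j => ((j : ℝ) + 1) ^ (-(1 / β)) with hb
  have hbs : Summable b := by
    have h := (Real.summable_nat_rpow (p := -(1 / β))).2 (by linarith)
    have h2 := (summable_nat_add_iff 1).2 h
    refine h2.congr fun j => ?_
    simp [hb]
  have hbpos : ∀ j, 0 < b j := fun j => Real.rpow_pos_of_pos (by positivity) _
  set S : ℝ := ∑' j, b j with hS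
  have hS1 : 1 ≤ S := by
    have h := hbs.le_tsum 0 (fun j _ => (hbpos j).le)
    have h0 : b 0 = 1 := by simp [hb]
    rw [h0] at h; exact h
  have hSpos : 0 < S := by linarith
  have ha : ∀ j, 0 ≤ b j / S := fun j => div_nonneg (hbpos j).le hSpos.le
  have hs : HasSum (fun j => b j / S) 1 := by
    have := hbs.hasSum.div_const S
    rwa [← hS, div_self hSpos.ne'] at this
  obtain ⟨ν, h1, h2, h3⟩ := exists_measure ha hs
  refine ⟨ν, h1, h2, 2, Real.log 2 * ((4 * S) ^ β)⁻¹, by norm_num, by positivity, ?_⟩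
  intro z
  set y : ℝ := |z.im| with hy
  have hy0 : 0 ≤ y := abs_nonneg _
  set ρ : ℝ := (y / (4 * S)) ^ β with hρ
  have hρ0 : 0 ≤ ρ := Real.rpow_nonneg (by positivity) _
  have hJ : ∀ j < ⌊ρ⌋₊, 4 ≤ b j / S * |z.im| := by
    intro j hj
    rw [← hy]
    have hj1 : ((j : ℝ) + 1) ≤ ρ := by
      have : j + 1 ≤ ⌊ρ⌋₊ := hj
      have h := (Nat.le_floor_iff hρ0).1 this
      exact_mod_cast h
    have hjp : (0 : ℝ) < (j : ℝ) + 1 := by positivity
    have h4 : ((j : ℝ) + 1) ^ (1 / β) ≤ y / (4 * S) := by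
      calc ((j : ℝ) + 1) ^ (1 / β) ≤ ρ ^ (1 / β) := Real.rpow_le_rpow hjp.le hj1 (by positivity)
        _ = y / (4 * S) := by
          rw [hρ, ← Real.rpow_mul (by positivity), mul_one_div, div_self hβ0.ne', Real.rpow_one]
    have h5 : b j = (((j : ℝ) + 1) ^ (1 / β))⁻¹ := by
      simp only [hb]; rw [Real.rpow_neg hjp.le]
    have h6 : 0 < ((j : ℝ) + 1) ^ (1 / β) := Real.rpow_pos_of_pos hjp _
    rw [h5]
    have h7 : 4 * S * ((j : ℝ) + 1) ^ (1 / β) ≤ y := by
      rw [le_div_iff₀ (by positivity)] at h4; linarith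
    rw [div_mul_eq_mul_div, le_div_iff₀ hSpos, inv_mul_eq_div, le_div_iff₀ h6]
    linarith
  have h4 := h3 z ⌊ρ⌋₊ hJ
  refine h4.trans ?_
  have h5 : (1 / 2 : ℝ) ^ ⌊ρ⌋₊ ≤ 2 * Real.exp (-(Real.log 2 * ρ)) := by
    have e1 : (1 / 2 : ℝ) ^ ⌊ρ⌋₊ = Real.exp (-(Real.log 2 * (⌊ρ⌋₊ : ℝ))) := by
      rw [one_div, inv_pow, Real.exp_neg, mul_comm, Real.exp_nat_mul, Real.exp_log (by norm_num)]
    have e2 : (2 : ℝ) * Real.exp (-(Real.log 2 * ρ)) = Real.exp (Real.log 2 - Real.log 2 * ρ) := by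
      rw [sub_eq_add_neg, Real.exp_add, Real.exp_log (by norm_num)]
    rw [e1, e2]
    apply Real.exp_le_exp.2
    have h6 := Nat.lt_floor_add_one ρ
    have h7 : 0 < Real.log 2 := Real.log_pos (by norm_num)
    nlinarith
  have h6 : Real.log 2 * ρ = Real.log 2 * ((4 * S) ^ β)⁻¹ * y ^ β := by
    rw [hρ, Real.div_rpow hy0 (by positivity)]; ring
  have h7 : z.re = max z.re 0 - max (-z.re) 0 := by
    rcases le_total z.re 0 with h | h
    · rw [max_eq_right h, max_eq_left (by linarith)]; ring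
    · rw [max_eq_left h, max_eq_right (by linarith)]; ring
  calc Real.exp (z.re + max z.re 0) * (1 / 2) ^ ⌊ρ⌋₊
      ≤ Real.exp (z.re + max z.re 0) * (2 * Real.exp (-(Real.log 2 * ρ))) :=
        mul_le_mul_of_nonneg_left h5 (Real.exp_pos _).le
    _ = 2 * Real.exp (z.re + max z.re 0 - Real.log 2 * ρ) := by
        rw [sub_eq_add_neg (z.re + max z.re 0), Real.exp_add (z.re + max z.re 0)]; ring
    _ = 2 * Real.exp (2 * max z.re 0 - max (-z.re) 0 - Real.log 2 * ((4 * S) ^ β)⁻¹ * y ^ β) := by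
        rw [h6]
        congr 2
        linarith

end Q238.BD
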