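import Mathlib
import Pool.Agent.Q286.BD.Spec
import Pool.Agent.Q241.SN.Comp

set_option autoImplicit false

/-! Job B2 of project BD: the sawtooth against a smooth function. -/

namespace Q238.BD

open Set Filter Topology MeasureTheory
open Q241.SN (Phi Phi_zero Phi_meas Phi_bdd Phi_cont Phi_right)

lemma phi_smul_integrable (k : ℕ) (θ : ℝ) (G : ℝ → ℂ) (hi : Integrable G) :
    Integrable (fun y : ℝ => ((Phi k (θ * y) : ℝ) : ℂ) * G y) := by
  obtain ⟨C, hC⟩ := Phi_bdd k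
  refine hi.bdd_mul (c := C) ?_ ?_
  · exact (Complex.measurable_ofReal.comp ((Phi_meas k).comp (measurable_const_mul θ))).aestronglyMeasurable
  · refine Eventually.of_forall fun y => ?_
    rw [Complex.norm_real, Real.norm_eq_abs]
    exact hC _

lemma step (k : ℕ) (θ : ℝ) (hθ : 0 < θ) (G G' : ℝ → ℂ) (hG : ∀ x, HasDerivAt G (G' x) x)
    (hi : Integrable G) (hi' : Integrable G') :
    ∫ y : ℝ, ((Phi k (θ * y) : ℝ) : ℂ) * G y =
      -((θ⁻¹ : ℝ) : ℂ) * ∫ y : ℝ, ((Phi (k + 1) (θ * y) : ℝ) : ℂ) * G' y := by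
  have hv : ∀ x, HasDerivWithinAt (fun y : ℝ => ((θ⁻¹ * Phi (k + 1) (θ * y) : ℝ) : ℂ))
      ((Phi k (θ * x) : ℝ) : ℂ) (Ioi x) x := by
    intro x
    have h1 : HasDerivWithinAt (fun y : ℝ => θ * y) θ (Ioi x) x := by
      simpa using ((hasDerivAt_id x).const_mul θ).hasDerivWithinAt
    have h2 : HasDerivWithinAt (fun y : ℝ => Phi (k + 1) (θ * y)) (Phi k (θ * x) * θ) (Ioi x) x := by
      refine HasDerivWithinAt.comp x (Phi_right k (θ * x)) h1 ?_
      intro y hy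
      simp only [mem_Ioi] at hy ⊢
      exact mul_lt_mul_of_pos_left hy hθ
    have h3 : HasDerivWithinAt (fun y : ℝ => θ⁻¹ * Phi (k + 1) (θ * y)) (θ⁻¹ * (Phi k (θ * x) * θ)) (Ioi x) x :=
      h2.const_mul θ⁻¹
    have h4 : θ⁻¹ * (Phi k (θ * x) * θ) = Phi k (θ * x) := by
      field_simp
    rw [h4] at h3
    exact h3.ofReal_comp
  have hvc : Continuous (fun y : ℝ => ((θ⁻¹ * Phi (k + 1) (θ * y) : ℝ) : ℂ)) :=
    Complex.continuous_ofReal.comp (continuous_const.mul ((Phi_cont k).comp (continuous_const.mul continuous_id)))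
  have hGc : Continuous G := continuous_iff_continuousAt.2 fun x => (hG x).continuousAt
  obtain ⟨C, hC⟩ := Phi_bdd (k + 1)
  have hvi : ∀ a b : ℝ, IntervalIntegrable (fun y : ℝ => ((Phi k (θ * y) : ℝ) : ℂ)) volume a b := by
    intro a b
    obtain ⟨C0, hC0⟩ := Phi_bdd k
    refine (intervalIntegrable_const (c := C0)).mono_fun' ?_ ?_
    · exact (Complex.measurable_ofReal.comp ((Phi_meas k).comp (measurable_const_mul θ))).aestronglyMeasurable
    · refine Eventually.of_forall fun y => ?_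
      show ‖((Phi k (θ * y) : ℝ) : ℂ)‖ ≤ C0
      rw [Complex.norm_real, Real.norm_eq_abs]
      exact hC0 _
  have key : ∀ X : ℝ, ∫ y in (-X)..X, G y * ((Phi k (θ * y) : ℝ) : ℂ) =
      G X * ((θ⁻¹ * Phi (k + 1) (θ * X) : ℝ) : ℂ) - G (-X) * ((θ⁻¹ * Phi (k + 1) (θ * (-X)) : ℝ) : ℂ) -
      ∫ y in (-X)..X, G' y * ((θ⁻¹ * Phi (k + 1) (θ * y) : ℝ) : ℂ) := by
    intro X
    exact intervalIntegral.integral_mul_deriv_eq_deriv_mul_of_hasDeriv_right hGc.continuousOn hvc.continuousOn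
      (fun x _ => (hG x).hasDerivWithinAt) (fun x _ => hv x) (hi'.intervalIntegrable) (hvi _ _)
  have hT1 : Tendsto (fun n : ℕ => ∫ y in (-(n : ℝ))..(n : ℝ), G y * ((Phi k (θ * y) : ℝ) : ℂ)) atTop
      (𝓝 (∫ y : ℝ, G y * ((Phi k (θ * y) : ℝ) : ℂ))) := by
    refine intervalIntegral_tendsto_integral ?_ ?_ ?_
    · refine (phi_smul_integrable k θ G hi).congr (Eventually.of_forall fun y => ?_)
      simp only; ring
    · exact tendsto_neg_atTop_atBot.comp tendsto_natCast_atTop_atTop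
    · exact tendsto_natCast_atTop_atTop
  have hint2 : Integrable (fun y : ℝ => G' y * ((θ⁻¹ * Phi (k + 1) (θ * y) : ℝ) : ℂ)) := by
    refine ((phi_smul_integrable (k + 1) θ G' hi').const_mul ((θ⁻¹ : ℝ) : ℂ)).congr
      (Eventually.of_forall fun y => ?_)
    simp only; push_cast; ring
  have hT2 : Tendsto (fun n : ℕ => ∫ y in (-(n : ℝ))..(n : ℝ), G' y * ((θ⁻¹ * Phi (k + 1) (θ * y) : ℝ) : ℂ)) atTop
      (𝓝 (∫ y : ℝ, G' y * ((θ⁻¹ * Phi (k + 1) (θ * y) : ℝ) : ℂ))) := by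
    refine intervalIntegral_tendsto_integral hint2 ?_ ?_
    · exact tendsto_neg_atTop_atBot.comp tendsto_natCast_atTop_atTop
    · exact tendsto_natCast_atTop_atTop
  have hG1 : Tendsto G atTop (𝓝 0) :=
    tendsto_zero_of_hasDerivAt_of_integrableOn_Ioi (a := 0) (fun x _ => hG x) hi'.integrableOn hi.integrableOn
  have hG2 : Tendsto G atBot (𝓝 0) :=
    tendsto_zero_of_hasDerivAt_of_integrableOn_Iic (a := 0) (fun x _ => hG x) hi'.integrableOn hi.integrableOn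
  have hbd : ∀ y : ℝ, ‖((θ⁻¹ * Phi (k + 1) (θ * y) : ℝ) : ℂ)‖ ≤ θ⁻¹ * C := by
    intro y
    rw [Complex.norm_real, Real.norm_eq_abs, abs_mul, abs_of_pos (inv_pos.2 hθ)]
    exact mul_le_mul_of_nonneg_left (hC _) (inv_pos.2 hθ).le
  have hB1 : Tendsto (fun n : ℕ => G (n : ℝ) * ((θ⁻¹ * Phi (k + 1) (θ * (n : ℝ)) : ℝ) : ℂ)) atTop (𝓝 0) := by
    have h0 : Tendsto (fun n : ℕ => ‖G (n : ℝ)‖ * (θ⁻¹ * C)) atTop (𝓝 0) := by
      have := ((hG1.comp tendsto_natCast_atTop_atTop).norm).mul_const (θ⁻¹ * C)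
      simpa using this
    refine squeeze_zero_norm (fun n => ?_) h0
    rw [norm_mul]
    exact mul_le_mul_of_nonneg_left (hbd _) (norm_nonneg _)
  have hB2 : Tendsto (fun n : ℕ => G (-(n : ℝ)) * ((θ⁻¹ * Phi (k + 1) (θ * (-(n : ℝ))) : ℝ) : ℂ)) atTop (𝓝 0) := by
    have h0 : Tendsto (fun n : ℕ => ‖G (-(n : ℝ))‖ * (θ⁻¹ * C)) atTop (𝓝 0) := by
      have := ((hG2.comp (tendsto_neg_atTop_atBot.comp tendsto_natCast_atTop_atTop)).norm).mul_const (θ⁻¹ * C)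
      simpa using this
    refine squeeze_zero_norm (fun n => ?_) h0
    rw [norm_mul]
    exact mul_le_mul_of_nonneg_left (hbd _) (norm_nonneg _)
  have hT3 := (hB1.sub hB2).sub hT2
  have hE : ∫ y : ℝ, G y * ((Phi k (θ * y) : ℝ) : ℂ) =
      0 - 0 - ∫ y : ℝ, G' y * ((θ⁻¹ * Phi (k + 1) (θ * y) : ℝ) : ℂ) := by
    refine tendsto_nhds_unique hT1 (hT3.congr fun n => ?_)
    rw [key n]
  have e1 : ∫ y : ℝ, ((Phi k (θ * y) : ℝ) : ℂ) * G y = ∫ y : ℝ, G y * ((Phi k (θ * y) : ℝ) : ℂ) := by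
    congr 1; funext y; ring
  have e2 : ∫ y : ℝ, G' y * ((θ⁻¹ * Phi (k + 1) (θ * y) : ℝ) : ℂ) =
      ((θ⁻¹ : ℝ) : ℂ) * ∫ y : ℝ, ((Phi (k + 1) (θ * y) : ℝ) : ℂ) * G' y := by
    rw [← integral_const_mul]
    congr 1; funext y; push_cast; ring
  rw [e1, hE, e2]; ring

lemma iter (θ : ℝ) (hθ : 0 < θ) (R : ℝ → ℂ) (J : ℕ) (hR : ContDiff ℝ J R)
    (hi : ∀ j ≤ J, Integrable (iteratedDeriv j R)) : ∀ j ≤ J,
    ∫ y : ℝ, ((Phi 0 (θ * y) : ℝ) : ℂ) * R y =
      (-((θ⁻¹ : ℝ) : ℂ)) ^ j * ∫ y : ℝ, ((Phi j (θ * y) : ℝ) : ℂ) * iteratedDeriv j R y := by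
  intro j
  induction j with
  | zero => intro _; simp
  | succ j ih =>
    intro hj
    rw [ih (by omega)]
    have hder : ∀ x, HasDerivAt (iteratedDeriv j R) (iteratedDeriv (j + 1) R x) x := by
      intro x
      rw [iteratedDeriv_succ]
      have hd : Differentiable ℝ (iteratedDeriv j R) := by
        apply hR.differentiable_iteratedDeriv
        exact_mod_cast hj
      exact (hd x).hasDerivAt
    rw [step j θ hθ _ _ hder (hi j (by omega)) (hi (j + 1) hj), pow_succ]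
    ring

open Pool.Agent.Q286.BD in
/-- Job B2. -/
theorem saw : S_saw := by
  intro J
  obtain ⟨C, hC⟩ := Phi_bdd J
  refine ⟨max C 1, lt_of_lt_of_le one_pos (le_max_right _ _), ?_⟩
  intro R θ hθ hR hi h0
  have hR0 : Integrable R := by simpa using hi 0 (Nat.zero_le _)
  have e1 : ∫ y : ℝ, ((Int.fract (θ * y) : ℝ) : ℂ) * R y = -∫ y : ℝ, ((Phi 0 (θ * y) : ℝ) : ℂ) * R y := by
    have h1 : ∀ y : ℝ, ((Int.fract (θ * y) : ℝ) : ℂ) * R y =
        (1 / 2 : ℂ) * R y - ((Phi 0 (θ * y) : ℝ) : ℂ) * R y := by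
      intro y
      rw [Phi_zero]; push_cast; ring
    simp_rw [h1]
    rw [integral_sub (hR0.const_mul _) (phi_smul_integrable 0 θ R hR0), integral_const_mul, h0]
    simp
  rw [e1, norm_neg, iter θ hθ R J hR hi J le_rfl, norm_mul, norm_pow, norm_neg, Complex.norm_real,
    Real.norm_eq_abs, abs_of_pos (inv_pos.2 hθ)]
  have h2 : ‖∫ y : ℝ, ((Phi J (θ * y) : ℝ) : ℂ) * iteratedDeriv J R y‖ ≤
      max C 1 * ∫ y : ℝ, ‖iteratedDeriv J R y‖ := by
    rw [← integral_const_mul]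
    refine (norm_integral_le_integral_norm _).trans ?_
    refine integral_mono (phi_smul_integrable J θ _ (hi J le_rfl)).norm ((hi J le_rfl).norm.const_mul _) ?_
    intro y
    simp only [norm_mul, Complex.norm_real, Real.norm_eq_abs]
    exact mul_le_mul_of_nonneg_right ((hC _).trans (le_max_left _ _)) (norm_nonneg _)
  calc θ⁻¹ ^ J * ‖∫ y : ℝ, ((Phi J (θ * y) : ℝ) : ℂ) * iteratedDeriv J R y‖
      ≤ θ⁻¹ ^ J * (max C 1 * ∫ y : ℝ, ‖iteratedDeriv J R y‖) :=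
        mul_le_mul_of_nonneg_left h2 (pow_nonneg (inv_pos.2 hθ).le _)
    _ = max C 1 * θ⁻¹ ^ J * ∫ y : ℝ, ‖iteratedDeriv J R y‖ := by ring

end Q238.BD
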